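import Pool.Agent.L7h32.OS.Stm2

/-!
# OS, part IN1: in the degenerate case at most one piece has points at infinity
-/

set_option autoImplicit false

open MvPolynomial

namespace Pool.Agent.L7h60.OS

open Pool.Agent.L7h17.OC Pool.Agent.L7h32.OS

theorem eval_inf (F : MvPolynomial (Fin 3) ℝ) (a b : ℕ → ℝ) (h : Sep F a b) (v : Fin 3 → ℝ)
    (hv : v 2 = 0) : eval v F = a 8 * v 0 ^ 8 + b 8 * v 1 ^ 8 := by
  rw [h]
  simp [Finset.sum_range_succ, hv]

/-- two points at infinity which are proportional lie in the same piece -/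
theorem same {k : ℕ} {F : MvPolynomial (Fin 3) ℝ} {C : Fin k → Set (Fin 3 → ℝ)}
    (hC : IsSplit k F C) {i j : Fin k} {v w : Fin 3 → ℝ} (hv : v ∈ C i) (hw : w ∈ C j) (c : ℝ)
    (hc : c ≠ 0) (h : w = c • v) : i = j := by
  by_contra hij
  have h1 : w ∈ C i := by
    rw [h]
    exact hC.2.2.2.1 i v hv c hc
  exact Set.disjoint_left.1 (hC.2.1 i j hij) h1 hw

theorem s_IN1 : S_IN1 := by
  classical
  intro F a b k C hF hab hz hC J hJ
  by_contra hcard
  push Not at hcard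
  obtain ⟨i, hi, j, hj, hij⟩ := Finset.one_lt_card.1 hcard
  obtain ⟨u, hu, hu2⟩ := hJ i hi
  obtain ⟨v, hv, hv2⟩ := hJ j hj
  have key : ∀ m, ∀ x ∈ C m, x 2 = 0 → x ≠ 0 ∧ a 8 * x 0 ^ 8 + b 8 * x 1 ^ 8 = 0 := by
    intro m x hx hx2
    have h1 : x ∈ realCone F := by
      rw [← hC.2.2.1]
      exact Set.mem_iUnion.2 ⟨m, hx⟩
    exact ⟨h1.1, by rw [← eval_inf F a b hF x hx2]; exact h1.2⟩
  obtain ⟨u0, hu'⟩ := key i u hu hu2
  obtain ⟨v0, hv'⟩ := key j v hv hv2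
  -- a nonzero vector with the third coordinate zero
  have nz : ∀ x : Fin 3 → ℝ, x ≠ 0 → x 2 = 0 → x 0 ≠ 0 ∨ x 1 ≠ 0 := by
    intro x hx hx2
    by_contra h
    push Not at h
    apply hx
    funext m
    fin_cases m
    · exact h.1
    · exact h.2
    · exact hx2
  -- proportional vectors
  have prop : ∀ x y : Fin 3 → ℝ, x 2 = 0 → y 2 = 0 → x 0 ≠ 0 → y 0 ≠ 0 →
      x 1 / x 0 = y 1 / y 0 → ∃ c : ℝ, c ≠ 0 ∧ y = c • x := by
    intro x y hx hy hx0 hy0 h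
    refine ⟨y 0 / x 0, div_ne_zero hy0 hx0, ?_⟩
    funext m
    fin_cases m
    · simp [hx0]
    · simp only [Fin.mk_one, Pi.smul_apply, smul_eq_mul]
      field_simp at h ⊢
      linarith
    · show y 2 = (y 0 / x 0) * x 2
      rw [hx, hy, mul_zero]
  have prop1 : ∀ x y : Fin 3 → ℝ, x 2 = 0 → y 2 = 0 → x 0 = 0 → y 0 = 0 → x 1 ≠ 0 → y 1 ≠ 0 →
      ∃ c : ℝ, c ≠ 0 ∧ y = c • x := by
    intro x y hx hy hx0 hy0 h h'
    refine ⟨y 1 / x 1, div_ne_zero h' h, ?_⟩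
    funext m
    fin_cases m
    · show y 0 = (y 1 / x 1) * x 0
      rw [hx0, hy0, mul_zero]
    · simp [h]
    · show y 2 = (y 1 / x 1) * x 2
      rw [hx, hy, mul_zero]
  by_cases ha : a 8 = 0
  · -- then `x 1 = 0`
    have hb : b 8 ≠ 0 := hab.resolve_left (fun h => h ha)
    have one : ∀ x : Fin 3 → ℝ, a 8 * x 0 ^ 8 + b 8 * x 1 ^ 8 = 0 → x 1 = 0 := by
      intro x hx
      rw [ha, zero_mul, zero_add] at hx
      exact pow_eq_zero_iff (by norm_num) |>.1 ((mul_eq_zero.1 hx).resolve_left hb)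
    have hu0 : u 0 ≠ 0 := (nz u u0 hu2).resolve_right (fun h => h (one u hu'))
    have hv0 : v 0 ≠ 0 := (nz v v0 hv2).resolve_right (fun h => h (one v hv'))
    obtain ⟨c, hc, h⟩ := prop u v hu2 hv2 hu0 hv0 (by rw [one u hu', one v hv', zero_div, zero_div])
    exact hij (same hC hu hv c hc h)
  · have hb : b 8 = 0 := hz.resolve_left ha
    have one : ∀ x : Fin 3 → ℝ, a 8 * x 0 ^ 8 + b 8 * x 1 ^ 8 = 0 → x 0 = 0 := by
      intro x hx
      rw [hb, zero_mul, add_zero] at hx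
      exact pow_eq_zero_iff (by norm_num) |>.1 ((mul_eq_zero.1 hx).resolve_left ha)
    have hu1 : u 1 ≠ 0 := (nz u u0 hu2).resolve_left (fun h => h (one u hu'))
    have hv1 : v 1 ≠ 0 := (nz v v0 hv2).resolve_left (fun h => h (one v hv'))
    obtain ⟨c, hc, h⟩ := prop1 u v hu2 hv2 (one u hu') (one v hv') hu1 hv1
    exact hij (same hC hu hv c hc h)

end Pool.Agent.L7h60.OS
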